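import Pool.Agent.PFC.StmtsB3

/-!
# Squad PFC, row ANN (helper50)
-/

open scoped BigOperators

noncomputable section

namespace Pool.Agent.PFC.B3.H50

open MvPolynomial

theorem ann (hSke : SkeStmt) (hMap : MapStmt) (hCyc : CycStmt) (hDmq : DmqStmt)
    (hAnl : AnlStmt) : AnnStmt := by
  intro F I E Λ _ _ _ _ _ _ _ q p i0 η P hq hη s hs a ha
  set R := PowerSeries F with hR
  let L : Type := FractionRing R
  let t : L := algebraMap R L PowerSeries.X
  have ht : t ≠ 0 := by
    intro h0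
    have h1 : (PowerSeries.X : R) = 0 := by
      apply IsFractionRing.injective R L
      rw [map_zero]
      exact h0
    exact PowerSeries.X_ne_zero h1
  let η' : I → E →* Lˣ := fun i => (Units.map (algebraMap R L : R →* L)).comp (η i)
  have hη' : ∀ i e, (η' i e : L) = algebraMap R L (η i e) := fun i e => rfl
  have hη2 : ∀ i e, η' i e ^ q i = η' (p i) e := by
    intro i e
    change (Units.map (algebraMap R L : R →* L) (η i e)) ^ q i =
      Units.map (algebraMap R L : R →* L) (η (p i) e)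
    rw [← map_pow, hη i e]
  obtain ⟨Λ', _, _, ⟨P'⟩⟩ := hSke L I E q p (cc L I t i0) η' hq hη2
  have hc : ∀ i, cc L I t i0 i = algebraMap R L (cc R I PowerSeries.X i0 i) := by
    intro i
    unfold cc
    split_ifs
    · rw [map_zero]
    · rfl
  obtain ⟨h, hX, _, hsm, hinj, hclr⟩ := hMap F I E Λ L Λ' q p (cc R I PowerSeries.X i0)
    (cc L I t i0) η η' P P' hc hη'
  set x : Λ := P.j (X (p i0)) with hx
  set x' : Λ' := P'.j (X (p i0)) with hx'
  set Q := (∏ i ∈ Finset.univ.filter (fun i => p.SameCycle i0 i), q i) with hQ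
  have hxx : h x = x' := hX (p i0)
  have hnil : x' ^ Q = 0 :=
    (hCyc L I Λ' q p t i0 (fun i => P'.j (X i)) hq (fun i => P'.rel i)).2
  obtain ⟨hfin, hdim⟩ := hDmq L I E Λ' q p t i0 η' P' hq ht
  have hN : (LinearMap.mulLeft L x') ^ Q = 0 := by
    rw [LinearMap.pow_mulLeft, hnil]
    exact LinearMap.mulLeft_zero_eq_zero L Λ'
  have hza : ((LinearMap.mulLeft L x') ^ s) (h a) = 0 := by
    rw [LinearMap.pow_mulLeft, LinearMap.mulLeft_apply, ← hxx, ← map_pow, ← map_mul, ha, map_zero]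
  obtain ⟨m', hm'⟩ := hAnl L Λ' (LinearMap.mulLeft L x') Q hN hdim s hs (h a) hza
  obtain ⟨n, b, hb⟩ := hclr m'
  refine ⟨n, b, ?_⟩
  apply hinj
  rw [hsm, map_pow, map_mul, map_pow h x (Q - s), hxx, ← hb, hm', LinearMap.pow_mulLeft,
    LinearMap.mulLeft_apply, mul_smul_comm]

end Pool.Agent.PFC.B3.H50
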